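import Pool.Agent.TH132.U.Full

/-!
# MP_0da4e0_ag: fullness of the Hodge realization on the motives generated by a variety and infinitely many others

Let `W` be a Weil cohomology theory for smooth projective varieties over a field `k` with a functorial
Hodge decomposition, such that all sub-Hodge structures have complements (in the intended use `k` is
algebraically closed with an embedding into the complex numbers and `W` is the Betti cohomology with
rational coefficients), and let `S` be a system of Hodge classes stable under cup products, pull-backs
and push-forwards (in the intended use: the absolute Hodge classes).

Let `X i`, for `i` in an arbitrary (for instance infinite) set `I`, be an **independent** family of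
varieties: for every set `T` of indices the Hodge classes on the products of members with index in `T`
by the products of members with index not in `T` split. For instance, pairwise non-isogenous elliptic
curves.

Then for **every** variety `Z` there is a **finite** set `E₀` of indices such that for all disjoint
sets `T` and `E` of indices with `T` disjoint from `E₀`: the realization is full on the motives
of **all products** of copies of `Z` and of the `X i`, `i ∈ T ∪ E`, if and only if it is full on the
motives of all products of the `X i`, `i ∈ T`, and on the motives of all products of copies of `Z` and
of the `X i`, `i ∈ E`.

Here `E₀` serves for all powers of `Z` at once. For absolute Hodge classes and abelian varieties `X i`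
the first condition holds by Deligne's theorem. So (take `E = E₀` and `T` its complement) the question
of full faithfulness on the tensor category generated by the motives of `Z` and of all elliptic curves
is equivalent to the same question for `Z` and finitely many elliptic curves; and (take `E` empty) if
the answer is positive for `Z` alone, then it is positive for `Z` and all elliptic curves outside
finitely many isogeny classes.
-/

set_option autoImplicit false

open CategoryTheory AlgebraicGeometry

universe u

namespace Pool.Agent.Results.MP_0da4e0_ag.FinitelyManyFactors

open Pool.Agent.H914 VarClass Obj WeilCohomology Pool.Agent.TH132.U

/-- **Fullness of the Hodge realization on the motives of the products of a variety and the members of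
an independent family reduces to finitely many members.** -/
theorem result {k : Type u} [Field k] {𝒱 : VarClass k} {ops : CycleOps 𝒱}
    {W : WeilCohomology.{u, 0} ops} [Algebra W.K ℂ] (𝓗 : HodgeTheory W) {ι : Type}
    (X : ι → 𝒱.Obj) (hX : 𝓗.Independent X) (Z : 𝒱.Obj) :
    ∃ E₀ : Finset ι, ∀ T E : Set ι, Disjoint T E₀ → Disjoint T E → ∀ S, ClassSystem 𝓗 S →
      (𝓗.Full S (IsProd (adjoin Z X) (indices (T ∪ E))) ↔
        𝓗.Full S (IsProd X T) ∧ 𝓗.Full S (IsProd (adjoin Z X) (indices E))) :=
  full_uniform 𝓗 X hX Z

end Pool.Agent.Results.MP_0da4e0_ag.FinitelyManyFactors
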